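import Mathlib

/-!
# Project MT: Waring's problem for almost all polynomial perturbations of `x ^ k` (MP_2fa62b_nt)

THEOREM. Let `k ≥ 2`. For almost all `α ∈ ℝ ^ (k-1)` (Lebesgue) the following holds for all `q ≥ 1`: put
`g(x) = ∑_{1 ≤ j < k} α_j x ^ j` and `a(x) = x ^ k + q ⌊g(x)⌋`. Every large integer `n` which is a sum of `2 k + 1` `k`-th
powers modulo `q` is a sum of exactly `2 k + 1` numbers `a(x)`, `x ≥ 1`, in at least `c n ^ (1 + 1/k)` ways. (With the local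
lemma of project WP: all large `n` are sums of exactly `s` of these numbers if `s ≥ 2 k + 1`, and `s ≥ 4 k` for
`k = 2 ^ m`, `m ≥ 2`, as in the conjecture of Hardy and Littlewood.)

Proof. (1) Mean value: the first `k` variables lie in separated blocks `blk P i = [2 (i+1) P, (2 i + 3) P]`. For given
`y` the number of the `x` with `|p_j(x) - p_j(y)| ≤ D` for all power sums `p_j`, `j ≤ k`, is at most `C D` (WC, CNT). As
`α` is random, the average number of the pairs with `∑ a(x_i) = ∑ a(y_i)` is at most `C P ^ k log P` (PR, MV), so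
almost surely it is at most `P ^ k (log P) ^ 3` for all large `P = 2 ^ m` (AE). (2) For almost all `α` the exponential
sum `∑ e(γ g(x) + γ x ^ k)` of the last variable is small unless `γ` is tiny (GEN, SUP; inverse theorem for Weyl sums of the
library). (3) Circle method on the real line with the kernel `φ` (KER, CM, INT, MTM, FIN).

All jobs are independent (hypotheses `S_...` where listed). Constants are free: please tell helper51 at once if a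
statement is wrong or inconvenient.
-/

set_option autoImplicit false

open Finset MeasureTheory

namespace Pool.Agent.V5helper51.MT

/-- `e(x) = exp(2 π i x)` -/
noncomputable def e (x : ℝ) : ℂ := Complex.exp (2 * Real.pi * x * Complex.I)

/-- the lower order part -/
noncomputable def g (k : ℕ) (α : Fin (k - 1) → ℝ) (x : ℝ) : ℝ := ∑ j, α j * x ^ ((j : ℕ) + 1)

/-- the perturbed power -/
noncomputable def a (k q : ℕ) (α : Fin (k - 1) → ℝ) (x : ℕ) : ℤ := (x : ℤ) ^ k + q * ⌊g k α x⌋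

/-- the polynomial of the variables in the class `ρ` modulo `q`: `a (q z + ρ) = ρ ^ k + q ⌊G z⌋` -/
noncomputable def G (k q ρ : ℕ) (α : Fin (k - 1) → ℝ) (t : ℝ) : ℝ :=
  ((q * t + ρ) ^ k - ρ ^ k) / q + g k α (q * t + ρ)

/-- a cube of polynomials -/
def cube (k A : ℕ) : Set (Fin (k - 1) → ℝ) := {α | ∀ j, |α j| ≤ A}

/-- the blocks -/
def blk (P i : ℕ) : Finset ℕ := Icc (2 * (i + 1) * P) ((2 * i + 3) * P)

/-- the tuples with one coordinate in each block -/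
def box (k P : ℕ) : Finset (Fin k → ℕ) := Fintype.piFinset fun i : Fin k => blk P i

/-- the kernel, positive only on `(0, 1)` -/
noncomputable def φ (t : ℝ) : ℝ := max 0 (1 - |2 * t - 1|)

/-- **WC** (120 lines). Power sums in separated intervals. Proof. Choose signs `s_i ∈ {1, -1}` with
`s_i (x i - y i) = |x i - y i|`. Let `g_l = (2 (s + l) + 7/2) P`, `l + 1 < m`, be the middle of the gap between the intervals `l` and
`l + 1`, and `q(t) = s_0 P ^ (m-1-n) ∏ (g_l - t) ` over the `n` indices `l` with `s_l ≠ s_(l+1)` (or: show by induction on `m` that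
there is a polynomial `q` of degree `≤ m - 1`, coefficients `|q_i| ≤ C P ^ (m-1-i)`, with `s_i q(t) ≥ c P ^ (m-1)` on the `i`-th
interval for all `i`; C, c depend only on `m, s`). Then `∑_i ∫_{y i}^{x i} t ^ r q(t) dt ≥ c P ^ (r + m - 1) ∑ |x i - y i|` (`t ≥ P`), and
the left side is `∑_{j = r+1}^{r+m} (q_(j-1-r) / j) ∑_i (x i ^ j - y i ^ j)`, where `|q_(j-1-r)| ≤ C P ^ (m + r - j)`. Divide. (By scaling
one may take `P = 1`.) -/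
def S_WC : Prop := ∀ r m s : ℕ, 1 ≤ m → ∃ C : ℝ, 0 < C ∧ ∀ P : ℝ, 0 < P → ∀ x y : Fin m → ℝ,
  (∀ i : Fin m, 2 * (s + (i : ℕ) + 1) * P ≤ x i ∧ x i ≤ (2 * (s + (i : ℕ)) + 3) * P) →
  (∀ i : Fin m, 2 * (s + (i : ℕ) + 1) * P ≤ y i ∧ y i ≤ (2 * (s + (i : ℕ)) + 3) * P) →
  ∀ i, |x i - y i| ≤ C * ∑ j ∈ Icc (r + 1) (r + m), |∑ l, (x l ^ j - y l ^ j)| / P ^ (j - 1)

open scoped Classical in
/-- **CNT** (150 lines, uses S_WC). Proof. If `D ≥ P ^ k`: the box has `(P+1)^k ≤ 2^k D` elements. Otherwise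
`P ^ r ≤ D < P ^ (r+1)`, `r ≤ k - 1`. Fix the first `r` coordinates (at most `(2 P) ^ r` ways). Two solutions `x, x'` with the same
first `r` coordinates have `|∑_{l ≥ r} (x_l ^ j - x'_l ^ j)| ≤ 2 D`, `j = r+1..k`; WC with `(r, m, s) = (r, k - r, r)` gives
`|x_i - x'_i| ≤ C' D / P ^ r`, so the coordinate `x_r` takes at most `C' D / P ^ r + 1 ≤ C'' D / P ^ r` values. Fix it too; WC
with `(r + 1, k - r - 1, r + 1)` and `j = r+2..k` gives `|x_i - x'_i| ≤ C' D / P ^ (r+1) ≤ C'` for the others: boundedly many. -/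
def S_CNT : Prop := ∀ k : ℕ, 1 ≤ k → ∃ C : ℝ, 0 < C ∧ ∀ P : ℕ, 1 ≤ P → ∀ D : ℝ, 1 ≤ D → ∀ c : ℕ → ℝ,
  (((box k P).filter fun x : Fin k → ℕ => ∀ j ∈ Icc 1 k, |∑ i, (x i : ℝ) ^ j - c j| ≤ D).card : ℝ) ≤ C * D

/-- **PR** (80 lines). Proof. For fixed other coordinates the set of the `α j` is contained in an interval of length
`2 t / |h j|`; Fubini (`MeasureTheory.volume_preserving_piFinSuccAbove` or `volume_preserving_piEquivPiSubtypeProd`;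
or `k - 1 = n + 1`). -/
def S_PR : Prop := ∀ k A : ℕ, 2 ≤ k → 1 ≤ A → ∀ (h : Fin (k - 1) → ℤ) (j : Fin (k - 1)), h j ≠ 0 →
  ∀ c t : ℝ, 0 ≤ t → volume.real {α : Fin (k - 1) → ℝ | α ∈ cube k A ∧ |c + ∑ i, α i * h i| ≤ t} ≤
    (2 * (A : ℝ)) ^ (k - 2) * (2 * t / |(h j : ℝ)|)

/-- **MV** (180 lines, uses S_CNT, S_PR). Proof. Let `h_j = ∑ (x_i ^ j - y_i ^ j)`, `j ≤ k`. If the sums are equal then
`|h_k / q + ∑_{j<k} α_j h_j| ≤ k` (floors). Let `H = max_{j<k} |h_j|`, `D = max 1 H`. The measure is at most `C₂ / D` (PR with `t = k` if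
`H ≥ 1`, the measure of the cube if `H = 0`), and the set is empty unless `|h_k| ≤ q k + q A k H ≤ C₁ D`. For `2^i ≤ D < 2^(i+1)` the
number of such pairs is (CNT for each `y`, `D := C₁ 2^(i+1)`) at most `(2 P)^k C C₁ 2^(i+1)`, so they contribute `≤ C P ^ k`; and
`D ≤ k ((2 k + 1) P) ^ (k-1)`, so there are at most `C log P` indices `i`. -/
def S_MV : Prop := ∀ k q A : ℕ, 2 ≤ k → 1 ≤ q → 1 ≤ A → ∃ C : ℝ, 0 < C ∧ ∀ P : ℕ, 2 ≤ P →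
  ∑ x ∈ box k P, ∑ y ∈ box k P, volume.real {α : Fin (k - 1) → ℝ | α ∈ cube k A ∧
    ∑ i, a k q α (x i) = ∑ i, a k q α (y i)} ≤ C * (P : ℝ) ^ k * Real.log P

/-- **AE** (120 lines, uses S_MV). Markov and Borel-Cantelli (`measure_limsup_atTop_eq_zero`/`ae_eventually_notMem`): with
`P = 2 ^ m` the measure of the `α ∈ cube k A` for which the number of pairs exceeds `P ^ k m ^ 3` is at most
`C P ^ k log P / (P ^ k m ^ 3) ≤ C / m ^ 2`; countably many `A`, `q`. (The sets are measurable: `⌊·⌋`, polynomials in `α`.) -/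
def S_AE : Prop := ∀ k : ℕ, 2 ≤ k → ∀ᵐ α : Fin (k - 1) → ℝ, ∀ q : ℕ, 1 ≤ q → ∃ m₀ : ℕ, ∀ m ≥ m₀,
  (((box k (2 ^ m) ×ˢ box k (2 ^ m)).filter fun p : (Fin k → ℕ) × (Fin k → ℕ) =>
    ∑ i, a k q α (p.1 i) = ∑ i, a k q α (p.2 i)).card : ℝ) ≤ ((2 : ℝ) ^ m) ^ k * (m : ℝ) ^ 3

/-- **KER** (120 lines). Fourier inversion for the triangle `φ`: `ψ(γ) = (1/2) e(-γ/2) (sin(π γ/2) / (π γ/2)) ^ 2`
`= ∫ φ(t) e(-γ t) dt` (`φ` is `2` times the convolution of the indicator of `[0, 1/2]` with itself, or integrate directly);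
`|ψ| ≤ min (1/2) (2 / (π^2 γ^2)) ≤ 1 / (1 + γ^2)`; then `Continuous.fourierInv_fourier_eq`/`MeasureTheory.Integrable.fourierInv_fourier_eq`
(real line, `𝓕`). -/
def S_KER : Prop := ∃ ψ : ℝ → ℂ, Continuous ψ ∧ (∀ γ, ‖ψ γ‖ ≤ 1 / (1 + γ ^ 2)) ∧
  ∀ t : ℝ, ((φ t : ℝ) : ℂ) = ∫ γ : ℝ, ψ γ * e (γ * t)

/-- **CM** (200 lines, uses S_KER). Proof. `φ(y) ≤ 1` and `φ(y) > 0` only for `0 < y < 1`, so the number of solutions is at
least `∑_{v,w,z} φ(H z + s v + t w - n)`. By KER the difference of this and of the sum of the integrals is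
`∫ ψ(γ) A(γ) B(γ) e(-n γ) Δ(γ) dγ`, `A = ∑_v e(γ s v)`, `B = ∑_w e(γ t w)`, `Δ` = the difference in the hypothesis (Fubini for
finite sums and an interval integral). `|Δ| ≤ δ` for `|γ| ≤ Γ` and `≤ 2 X` always. On every interval `[j, j+1]`, `j ∈ ℤ`,
`∫ |A B| ≤ (∫ |A|^2)^(1/2) (∫ |B|^2)^(1/2) ≤ E` (`A, B` have period one, orthogonality), and `∑_j sup 1/(1+γ^2) ≤ 6`, the part with
`|γ| > Γ` is at most `8 / Γ`. (The constant `20` may be any absolute constant.) -/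
def S_CM : Prop := ∀ (ι : Type) (S T : Finset ι) (s t : ι → ℤ) (X : ℕ) (H : ℝ → ℝ) (n : ℤ)
  (Γ δ E : ℝ), Continuous H → 1 ≤ Γ → 0 ≤ δ →
  (∀ γ : ℝ, |γ| ≤ Γ → ‖∑ z ∈ range X, e (γ * H z) - ∫ u in (0 : ℝ)..X, e (γ * H u)‖ ≤ δ) →
  (((S ×ˢ S).filter fun p => s p.1 = s p.2).card : ℝ) ≤ E →
  (((T ×ˢ T).filter fun p => t p.1 = t p.2).card : ℝ) ≤ E →
  ∑ v ∈ S, ∑ w ∈ T, ∫ u in (0 : ℝ)..X, φ (H u + s v + t w - n) ≤
    (((S ×ˢ (T ×ˢ range X)).filter fun p => s p.1 + t p.2.1 + ⌊H p.2.2⌋ = n).card : ℝ) +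
      20 * (δ + X / Γ) * E

/-- **SQ** (120 lines). Second moment. Proof. Expand the square; `g(q (u+z) + ρ) - g(q (u+z') + ρ)` contains the term
`α_0 q (z - z')` (`α_0` = coefficient of `x`), so for `z ≠ z'` the integral over `α_0 ∈ [-A, A]` of the product of exponentials is at most
`1 / (π |ω| q |z - z'|)` in absolute value; the other coordinates give `(2 A)^(k-2)`; the diagonal gives `(2 A)^(k-1) L`; and
`∑_{z ≠ z'} 1/|z - z'| ≤ 2 L (1 + log L)`. -/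
def S_SQ : Prop := ∀ k q ρ A : ℕ, 2 ≤ k → 1 ≤ q → 1 ≤ A → ∃ C : ℝ, 0 < C ∧ ∀ u L : ℕ, 1 ≤ L → ∀ ω : ℝ, ω ≠ 0 →
  ∫ α in cube k A, ‖∑ z ∈ range L, e (ω * G k q ρ α ((u + z : ℕ) : ℝ))‖ ^ 2 ≤
    C * L * (1 + (1 + Real.log L) / |ω|)

/-- **GEN** (200 lines, uses S_SQ). Exponential sums near rationals for almost all `α`. Proof. `X = M 2^m`, `θ = 1/20`, blocks of
`L = ⌈X^(1 - 3 θ)⌉` consecutive `z` (at most `2 X^(3 θ)` of them; the last one may be shorter: use `L' ≤ L` there, or only count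
full ones and estimate the rest trivially by `L`). By SQ with `ω = c / b` (`1/|ω| ≤ X^θ`) the measure of the
`α ∈ cube k A` with `|∑_J e(ω G)| > L X^(-2 θ)` for some `b, |c| ≤ X^θ` and some block `J` is at most
`C X^(5 θ) (L X^θ log X) / (L^2 X^(-4 θ)) ≤ C X^(-1/3)`: Borel-Cantelli over `m`, countable union over `A`. For the other `α` and
large `m`: `|τ G(z) - τ G(z')| ≤ C X^(θ - k) X^(k-1) L ≤ C X^(-2 θ)` for `z, z'` in one block, so the sum is at most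
`∑_J (|∑_J e(ω G)| + C L X^(-2 θ)) ≤ C X^(1 - 2 θ) ≤ X^(1 - θ)`. -/
def S_GEN : Prop := ∀ k q ρ M : ℕ, 2 ≤ k → 1 ≤ q → 1 ≤ M → ∀ᵐ α : Fin (k - 1) → ℝ, ∃ m₀ : ℕ, ∀ m ≥ m₀,
  ∀ X : ℕ, X = M * 2 ^ m → ∀ (b : ℕ) (c : ℤ) (τ : ℝ), 1 ≤ b → (b : ℝ) ≤ (X : ℝ) ^ (1 / 20 : ℝ) → c ≠ 0 →
  |(c : ℝ)| ≤ (X : ℝ) ^ (1 / 20 : ℝ) → |τ| ≤ (X : ℝ) ^ (1 / 20 : ℝ) / (X : ℝ) ^ k →
  ‖∑ z ∈ range X, e (((c : ℝ) / b + τ) * G k q ρ α z)‖ ≤ (X : ℝ) ^ (19 / 20 : ℝ)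

/-- **INT** (150 lines). (1) `|∑_{z<X} F(z) - ∫_0^X F| ≤ ∫_0^X |F'|`, `F = e(γ G)`, `|G'| ≤ C X^(k-1)` on `[0, X]`. (2) `G'` is positive,
increasing and at least `c t^(k-1)` for `t ≥ T₀` (`G'' > 0` there); by the first derivative test (partial integration) the integral over `[Y, X]`,
`Y ≥ T₀`, is at most `C / (|γ| Y^(k-1))`; take `Y = max T₀ |γ|^(-1/k)`. -/
def S_INT : Prop := ∀ k q ρ : ℕ, 2 ≤ k → 1 ≤ q → ∀ α : Fin (k - 1) → ℝ, ∃ C : ℝ, 0 < C ∧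
  ∀ X : ℕ, 1 ≤ X → ∀ γ : ℝ,
    ‖∑ z ∈ range X, e (γ * G k q ρ α z) - ∫ u in (0 : ℝ)..X, e (γ * G k q ρ α u)‖ ≤ C * |γ| * (X : ℝ) ^ k ∧
    (γ ≠ 0 → ‖∫ u in (0 : ℝ)..X, e (γ * G k q ρ α u)‖ ≤ C * (1 + |γ| ^ (-(1 / (k : ℝ)))))

/-- **SUP** (180 lines, uses S_GEN, S_INT and `Pool.Agent.H373R2.NB.IW_all`, file `Pool/Agent/H373R2/NB/Weyl.lean`: the inverse
theorem for Weyl sums; `Ph k (k! γ q^(k-1)) (fun z => γ G(z))` holds as `G` has degree `k` and leading coefficient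
`q^(k-1)`; cf. `Ph_poly` there). Proof. Let `c, m'` be the constants of `IW k`; `σ` small (`σ = 1 / (400 k (m' + 1))`). For
`|γ| ≤ X^(1/100) / X^k` use INT (1). Otherwise the integral is `≤ X^(1 - 2 σ)` by INT (2). If the sum were larger than `X^(1 - 2 σ)`, `IW`
with `u = X^(2 σ)` gives `q' ≤ c u^m'` and `a'` with `|q' k! q^(k-1) γ - a'| ≤ c u^m' / X^k`. With `b = q' k! q^(k-1)`: `a' = 0` would give
`|γ| ≤ c X^(2 σ m') / X^k`, too small; so `a' ≠ 0`, `|a'| ≤ b |γ| + 1 ≤ X^(1/20)`, and `γ = a' / b + τ` contradicts GEN. -/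
def S_SUP : Prop := ∀ k : ℕ, 2 ≤ k → ∃ σ : ℝ, 0 < σ ∧ σ < 1 ∧ ∀ q ρ M : ℕ, 1 ≤ q → 1 ≤ M →
  ∀ᵐ α : Fin (k - 1) → ℝ, ∃ m₀ : ℕ, ∀ m ≥ m₀, ∀ X : ℕ, X = M * 2 ^ m → ∀ γ : ℝ, |γ| ≤ (X : ℝ) ^ σ →
  ‖∑ z ∈ range X, e (γ * G k q ρ α z) - ∫ u in (0 : ℝ)..X, e (γ * G k q ρ α u)‖ ≤ (X : ℝ) ^ (1 - σ)

/-- **MTM** (100 lines). The main term. Proof. For `t ≥ T₀`: `0 < G'(t) ≤ C X^(k-1)` (`t ≤ X`), and `G(T₀) ≤ w`, `G(X) ≥ (3/4) X^k ≥ w + 1`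
for large `X`. So `∫_{T₀}^X φ(G(u) - w) du ≥ (1 / (C X^(k-1))) ∫_{T₀}^X φ(G(u) - w) G'(u) du = (1 / (C X^(k-1))) ∫_{G(T₀)}^{G(X)} φ(y - w) dy`
and the last integral is `1/2`. -/
def S_MTM : Prop := ∀ k q ρ : ℕ, 2 ≤ k → 1 ≤ q → ∀ α : Fin (k - 1) → ℝ, ∃ c : ℝ, 0 < c ∧ ∃ X₀ : ℕ,
  ∀ X : ℕ, X₀ ≤ X → ∀ w : ℝ, X₀ ≤ w → w ≤ (X : ℝ) ^ k / 2 →
    c / (X : ℝ) ^ (k - 1) ≤ ∫ u in (0 : ℝ)..X, φ (G k q ρ α u - w)

/-- `2 k + 1` variables in given residue classes -/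
def Solves (k q : ℕ) (α : Fin (k - 1) → ℝ) (ρ : Fin (2 * k + 1) → ℕ) : Prop :=
  ∃ c : ℝ, 0 < c ∧ ∃ n₀ : ℕ, ∀ n : ℕ, n₀ ≤ n → ((q : ℤ) ∣ (n : ℤ) - ∑ i, (ρ i : ℤ) ^ k) →
    ∃ S : Finset (Fin (2 * k + 1) → ℕ), c * (n : ℝ) ^ (1 + 1 / (k : ℝ)) ≤ S.card ∧
      ∀ x ∈ S, (∀ i, 1 ≤ x i ∧ x i % q = ρ i % q) ∧ ∑ i, a k q α (x i) = n

/-- **FIN** (250 lines, uses S_CM, S_MTM). Proof. Let `B = 4 k (2 k + 1)^k`, `M = 16 B`. For large `n` let `P = 2^m` with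
`4 B P^k ≤ n < 4 B (2 P)^k`, `X = M P`. For large `P` and `x ∈ box k P`: `0 ≤ ∑ a(x_i) ≤ B P^k` (`|g(x)| ≤ C x^(k-1)`).
`S` = the `x ∈ box k P` with `x_i ≡ ρ_i`, `T` = those with `x_i ≡ ρ_(k+i)` (mod `q`); both have at least `(P / (2 q))^k` elements;
`s x = (∑ (a(x_i) - ρ_i^k)) / q` (an exact quotient; so equal values only for equal sums), `t` similarly. The last variable is
`q z + ρ_(2k)`, `z < X` (`a (q z + ρ) = ρ^k + q ⌊G z⌋`). CM with `H = G k q ρ_(2k) α`, `Γ = X^σ`, `δ = X^(1-σ)`, `E = P^k m^3`, `n' = (n - ∑ ρ_i^k) / q`.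
By MTM with `w = n' - s v - t w'` (between `(n - 2 B P^k - C)/q ≥ X₀` and `n/q + C ≤ X^k/2`) the left side is
`≥ (P/(2q))^(2k) c / X^(k-1) ≥ c' P^(k+1)`, and `20 (δ + X/Γ) E ≤ 40 X^(1-σ) P^k m^3` is smaller than half of it for large `m`. The
solutions `(v, w, z)` give different `x ∈ ℕ^(2k+1)`; those with `x_(2k) = 0` (at most `z = 0`) do not occur, as
`a(x_(2k)) ≥ n - 2 B P^k > 0` is large. -/
def S_FIN : Prop := ∀ k q : ℕ, 2 ≤ k → 1 ≤ q → ∀ (α : Fin (k - 1) → ℝ) (ρ : Fin (2 * k + 1) → ℕ) (σ : ℝ),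
  0 < σ → σ < 1 →
  (∃ m₀ : ℕ, ∀ m ≥ m₀, (((box k (2 ^ m) ×ˢ box k (2 ^ m)).filter fun p : (Fin k → ℕ) × (Fin k → ℕ) =>
    ∑ i, a k q α (p.1 i) = ∑ i, a k q α (p.2 i)).card : ℝ) ≤ ((2 : ℝ) ^ m) ^ k * (m : ℝ) ^ 3) →
  (∀ M : ℕ, 1 ≤ M → ∃ m₀ : ℕ, ∀ m ≥ m₀, ∀ X : ℕ, X = M * 2 ^ m → ∀ γ : ℝ, |γ| ≤ (X : ℝ) ^ σ →
    ‖∑ z ∈ range X, e (γ * G k q (ρ (Fin.last (2 * k))) α z) -
      ∫ u in (0 : ℝ)..X, e (γ * G k q (ρ (Fin.last (2 * k))) α u)‖ ≤ (X : ℝ) ^ (1 - σ)) →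
  Solves k q α ρ

end Pool.Agent.V5helper51.MT
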