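import Pool.Agent.V5helper51.MT.FIN

set_option autoImplicit false

open Finset MeasureTheory

namespace Pool.Agent.V5helper51.MT

lemma G_cont (k q ρ : ℕ) (α : Fin (k - 1) → ℝ) : Continuous (G k q ρ α) := by
  unfold G g
  fun_prop

lemma a_dvd (k q : ℕ) (α : Fin (k - 1) → ℝ) (x r : ℕ) (h : x % q = r % q) :
    (q : ℤ) ∣ a k q α x - (r : ℤ) ^ k := by
  have h1 : (x : ℤ) ≡ r [ZMOD q] := Int.natCast_modEq_iff.2 h
  have h2 := (h1.pow k).symm.dvd
  have : a k q α x - (r : ℤ) ^ k = ((x : ℤ) ^ k - (r : ℤ) ^ k) + q * ⌊g k α x⌋ := by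
    unfold a; ring
  rw [this]
  exact dvd_add h2 (dvd_mul_right _ _)

lemma a_last (k q : ℕ) (hq : 1 ≤ q) (α : Fin (k - 1) → ℝ) (z r : ℕ) :
    a k q α (q * z + r) = (r : ℤ) ^ k + q * ⌊G k q r α z⌋ := by
  have hq0 : (q : ℝ) ≠ 0 := by
    have : (q : ℝ) ≥ 1 := by exact_mod_cast hq
    linarith
  have h1 : ((q * z + r : ℕ) : ℤ) ≡ r [ZMOD q] := by
    push_cast
    rw [Int.ModEq, Int.mul_add_emod_self_left]
  obtain ⟨I, hI⟩ := (h1.pow k).symm.dvd
  have h2 : G k q r α z = (I : ℝ) + g k α ((q * z + r : ℕ) : ℝ) := by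
    unfold G
    have h3 : (((q * z + r : ℕ) : ℝ)) ^ k - (r : ℝ) ^ k = q * I := by exact_mod_cast hI
    push_cast at h3 ⊢
    rw [h3]
    field_simp
  rw [h2, Int.floor_intCast_add]
  unfold a
  have h4 : (((q * z + r : ℕ) : ℤ)) ^ k = (r : ℤ) ^ k + q * I := by linarith
  rw [h4]
  ring

lemma sum_bd (k q : ℕ) (α : Fin (k - 1) → ℝ) (x₀ : ℕ)
    (h : ∀ x : ℕ, x₀ ≤ x → 0 ≤ a k q α x ∧ (a k q α x : ℝ) ≤ 2 * (x : ℝ) ^ k)
    (P : ℕ) (hP : x₀ ≤ P) (v : Fin k → ℕ) (hv : v ∈ box k P) :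
    0 ≤ ∑ i, (a k q α (v i) : ℝ) ∧
      ∑ i, (a k q α (v i) : ℝ) ≤ ((4 * k * (2 * k + 1) ^ k : ℕ) : ℝ) * (P : ℝ) ^ k := by
  unfold box at hv
  rw [Fintype.mem_piFinset] at hv
  have hb : ∀ i : Fin k, x₀ ≤ v i ∧ v i ≤ (2 * k + 1) * P := by
    intro i
    have h1 := hv i
    unfold blk at h1
    rw [mem_Icc] at h1
    have hi := i.2
    constructor
    · calc x₀ ≤ 1 * P := by omega
        _ ≤ 2 * ((i : ℕ) + 1) * P := Nat.mul_le_mul_right _ (by omega)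
        _ ≤ _ := h1.1
    · exact h1.2.trans (Nat.mul_le_mul_right _ (by omega))
  constructor
  · refine sum_nonneg fun i _ => ?_
    exact_mod_cast (h _ (hb i).1).1
  · calc ∑ i, (a k q α (v i) : ℝ) ≤ ∑ _i : Fin k, 2 * (((2 * k + 1) * P : ℕ) : ℝ) ^ k := by
          refine sum_le_sum fun i _ => ?_
          refine (h _ (hb i).1).2.trans ?_
          have : (v i : ℝ) ≤ (((2 * k + 1) * P : ℕ) : ℝ) := by exact_mod_cast (hb i).2
          gcongr
      _ = (k : ℝ) * (2 * (((2 * k + 1) * P : ℕ) : ℝ) ^ k) := by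
          rw [sum_const, card_univ, Fintype.card_fin, nsmul_eq_mul]
      _ ≤ _ := by
          push_cast
          rw [mul_pow]
          have : (0 : ℝ) ≤ (k : ℝ) * (((2 * (k : ℝ) + 1) ^ k) * (P : ℝ) ^ k) := by positivity
          nlinarith

/-- the tuple made of two tuples and a last variable -/
def glue (k q r : ℕ) (p : (Fin k → ℕ) × ((Fin k → ℕ) × ℕ)) : Fin (2 * k + 1) → ℕ := fun i =>
  if h : (i : ℕ) < k then p.1 ⟨i, h⟩ else
    if h2 : (i : ℕ) < 2 * k then p.2.1 ⟨i - k, by omega⟩ else q * p.2.2 + r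

lemma glue_one (k q r : ℕ) (p : (Fin k → ℕ) × ((Fin k → ℕ) × ℕ)) (i : Fin k) :
    glue k q r p ⟨i, by omega⟩ = p.1 i := by
  unfold glue
  have : (i : ℕ) < k := i.2
  simp only [this, dif_pos]

lemma glue_two (k q r : ℕ) (p : (Fin k → ℕ) × ((Fin k → ℕ) × ℕ)) (i : Fin k) :
    glue k q r p ⟨k + i, by omega⟩ = p.2.1 i := by
  unfold glue
  have h1 : ¬ k + (i : ℕ) < k := by omega
  have h2 : k + (i : ℕ) < 2 * k := by omega
  simp only [h1, h2, dif_pos, dif_neg, not_false_eq_true]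
  exact congrArg p.2.1 (Fin.ext (by simp))

lemma glue_last (k q r : ℕ) (p : (Fin k → ℕ) × ((Fin k → ℕ) × ℕ)) :
    glue k q r p (Fin.last (2 * k)) = q * p.2.2 + r := by
  unfold glue
  have h1 : ¬ ((Fin.last (2 * k) : Fin (2 * k + 1)) : ℕ) < k := by simp; omega
  have h2 : ¬ ((Fin.last (2 * k) : Fin (2 * k + 1)) : ℕ) < 2 * k := by simp
  simp only [h1, h2, dif_neg, not_false_eq_true]

lemma glue_inj (k q r : ℕ) (hq : 1 ≤ q) : Function.Injective (glue k q r) := by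
  intro p p' h
  have h1 : p.1 = p'.1 := by
    funext i
    rw [← glue_one k q r p i, h, glue_one]
  have h2 : p.2.1 = p'.2.1 := by
    funext i
    rw [← glue_two k q r p i, h, glue_two]
  have h3 : q * p.2.2 + r = q * p'.2.2 + r := by
    rw [← glue_last k q r p, h, glue_last]
  have h4 : p.2.2 = p'.2.2 := Nat.eq_of_mul_eq_mul_left (by omega) (by omega : q * p.2.2 = q * p'.2.2)
  exact Prod.ext h1 (Prod.ext h2 h4)

end Pool.Agent.V5helper51.MT
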