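import Pool.Agent.V5helper51.MT.Stm

set_option autoImplicit false

open Finset MeasureTheory

namespace Pool.Agent.V5helper51.MT

/-- growth of `a` -/
lemma a_bd (k q : ℕ) (hk : 2 ≤ k) (α : Fin (k - 1) → ℝ) : ∃ x₀ : ℕ, 1 ≤ x₀ ∧ ∀ x : ℕ, x₀ ≤ x →
    0 ≤ a k q α x ∧ (a k q α x : ℝ) ≤ 2 * (x : ℝ) ^ k := by
  set A : ℝ := ∑ j, |α j| with hA
  have hA0 : 0 ≤ A := sum_nonneg fun _ _ => abs_nonneg _
  refine ⟨⌈(q : ℝ) * (A + 1)⌉₊ + 1, by omega, fun x hx => ?_⟩
  have hx1 : (q : ℝ) * (A + 1) ≤ x := by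
    have h1 := Nat.le_ceil ((q : ℝ) * (A + 1))
    have h2 : ((⌈(q : ℝ) * (A + 1)⌉₊ + 1 : ℕ) : ℝ) ≤ x := by exact_mod_cast hx
    push_cast at h2
    linarith
  have hx0 : (1 : ℝ) ≤ x := by
    have : 1 ≤ x := by omega
    exact_mod_cast this
  have hg : |g k α x| ≤ A * (x : ℝ) ^ (k - 1) := by
    unfold g
    refine (abs_sum_le_sum_abs _ _).trans ?_
    rw [hA, sum_mul]
    refine sum_le_sum fun j _ => ?_
    rw [abs_mul, abs_of_nonneg (by positivity : (0 : ℝ) ≤ (x : ℝ) ^ ((j : ℕ) + 1))]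
    refine mul_le_mul_of_nonneg_left ?_ (abs_nonneg _)
    exact pow_le_pow_right₀ hx0 (by have := j.2; omega)
  have hpow1 : (1 : ℝ) ≤ (x : ℝ) ^ (k - 1) := one_le_pow₀ hx0
  have hfl : |((⌊g k α x⌋ : ℤ) : ℝ)| ≤ (A + 1) * (x : ℝ) ^ (k - 1) := by
    have h1 := Int.floor_le (g k α x)
    have h2 := Int.lt_floor_add_one (g k α x)
    have h3 := abs_le.1 hg
    rw [abs_le]
    constructor <;> nlinarith
  have hq : |(q : ℝ) * ((⌊g k α x⌋ : ℤ) : ℝ)| ≤ (x : ℝ) ^ k := by
    rw [abs_mul, abs_of_nonneg (by positivity : (0 : ℝ) ≤ (q : ℝ))]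
    have e1 : (x : ℝ) ^ k = x * (x : ℝ) ^ (k - 1) := by
      rw [← pow_succ']
      congr 1
      omega
    rw [e1]
    calc (q : ℝ) * |((⌊g k α x⌋ : ℤ) : ℝ)| ≤ q * ((A + 1) * (x : ℝ) ^ (k - 1)) :=
          mul_le_mul_of_nonneg_left hfl (by positivity)
      _ = (q * (A + 1)) * (x : ℝ) ^ (k - 1) := by ring
      _ ≤ _ := mul_le_mul_of_nonneg_right hx1 (by positivity)
  have ea : (a k q α x : ℝ) = (x : ℝ) ^ k + (q : ℝ) * ((⌊g k α x⌋ : ℤ) : ℝ) := by
    unfold a
    push_cast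
    ring
  have h4 := abs_le.1 hq
  constructor
  · have : (0 : ℝ) ≤ (a k q α x : ℝ) := by rw [ea]; linarith
    exact_mod_cast this
  · rw [ea]; linarith

/-- numbers of a residue class in a block -/
lemma blk_class (q : ℕ) (hq : 1 ≤ q) (r P i : ℕ) (hP : 2 * q ≤ P) :
    (P : ℝ) / (2 * q) ≤ ((blk P i).filter fun x => x % q = r % q).card := by
  set u := 2 * (i + 1) * P with hu
  set c := (r + (q - 1) * u) % q with hc
  have hcq : c < q := Nat.mod_lt _ (by omega)
  have huc : (u + c) % q = r % q := by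
    rw [hc, Nat.add_mod_mod]
    have : u + (r + (q - 1) * u) = r + q * u := by
      obtain ⟨q', rfl⟩ : ∃ q', q = q' + 1 := ⟨q - 1, by omega⟩
      simp only [Nat.add_sub_cancel]
      ring
    rw [this, Nat.add_mul_mod_self_left]
  have hle : P / q ≤ ((blk P i).filter fun x => x % q = r % q).card := by
    have : ((range (P / q)).image fun t => u + c + q * t) ⊆ (blk P i).filter fun x => x % q = r % q := by
      intro x hx
      rw [mem_image] at hx
      obtain ⟨t, ht, rfl⟩ := hx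
      rw [mem_range] at ht
      rw [mem_filter]
      refine ⟨?_, ?_⟩
      · unfold blk
        rw [mem_Icc]
        refine ⟨by omega, ?_⟩
        have h1 : q * (t + 1) ≤ P := (Nat.mul_le_mul_left q ht).trans (Nat.mul_div_le P q)
        have h2 : (2 * i + 3) * P = u + P := by rw [hu]; ring
        rw [h2]
        have h3 : q * (t + 1) = q * t + q := by ring
        omega
      · rw [Nat.add_mul_mod_self_left, huc]
    calc P / q = ((range (P / q)).image fun t => u + c + q * t).card := by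
          rw [card_image_of_injective, card_range]
          intro t t' h
          have h' : u + c + q * t = u + c + q * t' := h
          exact Nat.eq_of_mul_eq_mul_left (by omega) (by omega : q * t = q * t')
      _ ≤ _ := card_le_card this
  have hq0 : (0 : ℝ) < q := by exact_mod_cast (by omega : 0 < q)
  have h5 : (P : ℝ) / q < ((P / q : ℕ) : ℝ) + 1 := by
    rw [div_lt_iff₀ hq0]
    have h6 := Nat.lt_div_mul_add (a := P) (b := q) (by omega)
    have h7 : (P : ℝ) < ((P / q * q + q : ℕ) : ℝ) := by exact_mod_cast h6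
    push_cast at h7
    linarith
  have h8 : (1 : ℝ) ≤ (P : ℝ) / (2 * q) := by
    rw [le_div_iff₀ (by positivity)]
    have : ((2 * q : ℕ) : ℝ) ≤ P := by exact_mod_cast hP
    push_cast at this
    linarith
  have h9 : (P : ℝ) / q = 2 * ((P : ℝ) / (2 * q)) := by
    field_simp
  have h10 : ((P / q : ℕ) : ℝ) ≤ ((blk P i).filter fun x => x % q = r % q).card := by exact_mod_cast hle
  linarith

/-- the tuples of the box in given classes -/
def cls (k q P : ℕ) (ρ : Fin k → ℕ) : Finset (Fin k → ℕ) :=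
  Fintype.piFinset fun i : Fin k => (blk P i).filter fun x => x % q = ρ i % q

lemma cls_card (k q P : ℕ) (hq : 1 ≤ q) (ρ : Fin k → ℕ) (hP : 2 * q ≤ P) :
    ((P : ℝ) / (2 * q)) ^ k ≤ (cls k q P ρ).card := by
  unfold cls
  rw [Fintype.card_piFinset]
  push_cast
  calc ((P : ℝ) / (2 * q)) ^ k = ∏ _i : Fin k, (P : ℝ) / (2 * q) := by
        rw [prod_const, card_univ, Fintype.card_fin]
    _ ≤ _ := prod_le_prod (fun _ _ => by positivity) fun i _ => blk_class q hq (ρ i) P i hP

lemma cls_box (k q P : ℕ) (ρ : Fin k → ℕ) : cls k q P ρ ⊆ box k P := by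
  intro x hx
  unfold cls at hx
  unfold box
  rw [Fintype.mem_piFinset] at hx ⊢
  exact fun i => (mem_filter.1 (hx i)).1

lemma split_sum {M : Type} [AddCommMonoid M] (k : ℕ) (f : Fin (2 * k + 1) → M) :
    ∑ i, f i = ∑ i : Fin k, f ⟨i, by omega⟩ + ∑ i : Fin k, f ⟨k + i, by omega⟩ + f (Fin.last (2 * k)) := by
  set F : ℕ → M := fun j => if h : j < 2 * k + 1 then f ⟨j, h⟩ else 0 with hF
  have h1 : ∑ i, f i = ∑ i : Fin (2 * k + 1), F i := by
    refine sum_congr rfl fun i _ => ?_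
    simp only [hF, i.2, dif_pos]
  have h2 : ∑ j ∈ range (2 * k), F j = ∑ j ∈ range k, F j + ∑ j ∈ range k, F (k + j) := by
    rw [← sum_range_add, two_mul]
  have h3 : ∑ j ∈ range k, F j = ∑ i : Fin k, f ⟨i, by omega⟩ := by
    rw [← Fin.sum_univ_eq_sum_range]
    refine sum_congr rfl fun i _ => ?_
    have : (i : ℕ) < 2 * k + 1 := by omega
    simp only [hF, this, dif_pos]
  have h4 : ∑ j ∈ range k, F (k + j) = ∑ i : Fin k, f ⟨k + i, by omega⟩ := by
    rw [← Fin.sum_univ_eq_sum_range (fun j => F (k + j))]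
    refine sum_congr rfl fun i _ => ?_
    have : k + (i : ℕ) < 2 * k + 1 := by omega
    simp only [hF, this, dif_pos]
  have h5 : F (2 * k) = f (Fin.last (2 * k)) := by
    have : 2 * k < 2 * k + 1 := by omega
    simp only [hF, this, dif_pos]
    rfl
  rw [h1, Fin.sum_univ_eq_sum_range F (2 * k + 1), sum_range_succ, h2, h3, h4, h5]

end Pool.Agent.V5helper51.MT
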